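import Pool.Agent.H94.BS.Conv

/-! Coefficients of classes on `W ⊗ S`. -/

open CategoryTheory MonoidalCategory CartesianMonoidalCategory Polynomial

universe u v w

namespace Pool.Agent.H94.BS

variable {C : Type u} [Category.{v} C] [CartesianMonoidalCategory C]
variable {T : ChowTheory.{u, v, w} C} (P : PrestableCurves T)

/-- the isomorphism `CH W [t] = CH (W ⊗ S)` -/
noncomputable def poly (W : C) : (T.CH W)[X] ≃+* T.CH (W ⊗ P.two.S) :=
  RingEquiv.ofBijective
    (eval₂RingHom (T.pull (fst W P.two.S)).toRingHom (T.pull (snd W P.two.S) P.two.t)) (P.two.S_poly W)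

lemma poly_apply (W : C) (f : (T.CH W)[X]) :
    poly P W f = eval₂ (T.pull (fst W P.two.S)).toRingHom (T.pull (snd W P.two.S) P.two.t) f := rfl

/-- the coefficient of `t ^ k` -/
noncomputable def cf (W : C) (k : ℕ) (y : T.CH (W ⊗ P.two.S)) : T.CH W :=
  ((poly P W).symm y).coeff k

lemma eq_zero_of_cf (W : C) (y : T.CH (W ⊗ P.two.S)) (h : ∀ k, cf P W k y = 0) : y = 0 := by
  have : (poly P W).symm y = 0 := by
    ext k
    simpa [cf] using h k
  simpa using congrArg (poly P W) this

lemma cf_zero (W : C) (k : ℕ) : cf P W k 0 = 0 := by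
  simp [cf]

/-- ring homomorphisms out of `CH (W ⊗ S)` act through the polynomial -/
lemma pull_poly {W W' : C} (h : W' ⟶ W ⊗ P.two.S) (f : (T.CH W)[X]) :
    T.pull h (poly P W f) =
      eval₂ (T.pull (h ≫ fst W P.two.S)).toRingHom (T.pull (h ≫ snd W P.two.S) P.two.t) f := by
  rw [poly_apply]
  have := Polynomial.hom_eval₂ f (T.pull (fst W P.two.S)).toRingHom (T.pull h).toRingHom
    (T.pull (snd W P.two.S) P.two.t)
  refine (this.trans ?_)
  congr 1
  · ext x
    exact (T.pull_comp _ _ _).symm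
  · exact (T.pull_comp _ _ _).symm

lemma poly_map {W W' : C} (f : W' ⟶ W) (g : (T.CH W)[X]) :
    T.pull (f ▷ P.two.S) (poly P W g) = poly P W' (g.map (T.pull f).toRingHom) := by
  rw [pull_poly, poly_apply, Polynomial.eval₂_map]
  congr 1
  · ext x
    simp [T.pull_comp]
  · simp

lemma cf_pull {W W' : C} (f : W' ⟶ W) (k : ℕ) (y : T.CH (W ⊗ P.two.S)) :
    cf P W' k (T.pull (f ▷ P.two.S) y) = T.pull f (cf P W k y) := by
  obtain ⟨g, rfl⟩ := (poly P W).surjective y
  rw [poly_map]
  simp [cf]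

/-- pulling back to `W ⊗ pt` gives the constant coefficient -/
lemma pull_pt_eq {W : C} (y : T.CH (W ⊗ P.two.S)) :
    T.pull (lift (𝟙 W) (toUnit W ≫ P.two.pt)) y = cf P W 0 y := by
  obtain ⟨g, rfl⟩ := (poly P W).surjective y
  rw [pull_poly]
  simp only [lift_fst, lift_snd]
  have h1 : (T.pull (𝟙 W)).toRingHom = RingHom.id _ := by
    ext x
    simp [T.pull_id]
  have h2 : T.pull (toUnit W ≫ P.two.pt) P.two.t = 0 := by
    rw [T.pull_comp, c_pull_pt P, map_zero]
  rw [h1, h2]
  simp [cf, Polynomial.coeff_zero_eq_eval_zero]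

/-- pulling back from `(W ⊗ S) ⊗ S` to the diagonal -/
lemma cf_diag {W : C} (k : ℕ) (y : T.CH ((W ⊗ P.two.S) ⊗ P.two.S))
    (h : ∀ a b, a + b = k → cf P W a (cf P (W ⊗ P.two.S) b y) = 0) :
    cf P W k (T.pull (lift (𝟙 (W ⊗ P.two.S)) (snd W P.two.S)) y) = 0 := by
  obtain ⟨g, rfl⟩ := (poly P (W ⊗ P.two.S)).surjective y
  rw [pull_poly]
  simp only [lift_fst, lift_snd]
  have h1 : (T.pull (𝟙 (W ⊗ P.two.S))).toRingHom = RingHom.id _ := by
    ext x
    simp [T.pull_id]
  rw [h1, Polynomial.eval₂_id, Polynomial.eval_eq_sum_range]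
  have ht : T.pull (snd W P.two.S) P.two.t = poly P W X := by
    rw [poly_apply]; simp
  unfold cf
  rw [map_sum, Polynomial.finsetSum_coeff]
  refine Finset.sum_eq_zero fun b _ => ?_
  rw [map_mul, map_pow, ht, RingEquiv.symm_apply_apply, Polynomial.coeff_mul_X_pow']
  split_ifs with hb
  · have := h (k - b) b (Nat.sub_add_cancel hb)
    simpa [cf] using this
  · rfl

/-- first factor constant -/
lemma cf_left {W : C} (k : ℕ) (y : T.CH ((W ⊗ P.two.S) ⊗ P.two.S)) :
    cf P W k (T.pull (lift (lift (fst W P.two.S) (toUnit (W ⊗ P.two.S) ≫ P.two.pt)) (snd W P.two.S)) y) =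
      cf P W 0 (cf P (W ⊗ P.two.S) k y) := by
  have hf : lift (lift (fst W P.two.S) (toUnit (W ⊗ P.two.S) ≫ P.two.pt)) (snd W P.two.S) =
      (lift (𝟙 W) (toUnit W ≫ P.two.pt)) ▷ P.two.S := by
    ext <;> simp [← Category.assoc]
  rw [hf, cf_pull, pull_pt_eq]

open DirectSum in
lemma dec_pull {X Y : C} (f : X ⟶ Y) (d : ℕ) (y : T.CH Y) :
    (decompose (T.deg X) (T.pull f y) d : T.CH X) =
      T.pull f (decompose (T.deg Y) y d : T.CH Y) := by
  induction y using DirectSum.Decomposition.inductionOn (T.deg Y) with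
  | zero => simp
  | @homogeneous i m =>
    have h1 := T.pull_deg f i m.1 m.2
    by_cases h : i = d
    · subst h
      rw [decompose_of_mem_same _ h1, decompose_of_mem_same _ m.2]
    · rw [decompose_of_mem_ne _ h1 h, decompose_of_mem_ne _ m.2 h, map_zero]
  | add a b ha hb =>
    simp only [map_add, decompose_add, DirectSum.add_apply, Submodule.coe_add, ha, hb]

open DirectSum in
/-- degrees of coefficients -/
lemma cf_deg {W : C} (D : ℕ) (y : T.CH (W ⊗ P.two.S)) (hy : y ∈ T.deg (W ⊗ P.two.S) D) (k : ℕ) :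
    (k ≤ D → cf P W k y ∈ T.deg W (D - k)) ∧ (D < k → cf P W k y = 0) := by
  obtain ⟨f, rfl⟩ := (poly P W).surjective y
  set t' := T.pull (snd W P.two.S) P.two.t with ht'
  have ht1 : t' ∈ T.deg (W ⊗ P.two.S) 1 := T.pull_deg _ _ _ P.two.t_deg
  have htk : ∀ k, t' ^ k ∈ T.deg (W ⊗ P.two.S) k := by
    intro k
    have := SetLike.pow_mem_graded k ht1
    simpa using this
  set f' : (T.CH W)[X] := ∑ k ∈ Finset.range (f.natDegree + 1),
    if k ≤ D then monomial k (decompose (T.deg W) (f.coeff k) (D - k) : T.CH W) else 0 with hf'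
  have key : poly P W f' = poly P W f := by
    have h1 : poly P W f = (decompose (T.deg (W ⊗ P.two.S)) (poly P W f) D : T.CH (W ⊗ P.two.S)) :=
      (decompose_of_mem_same _ hy).symm
    rw [h1]
    conv_rhs => rw [poly_apply, eval₂_eq_sum_range]
    rw [decompose_sum, DFinsupp.finsetSum_apply, AddSubmonoidClass.coe_finsetSum, hf', map_sum]
    refine Finset.sum_congr rfl fun k _ => ?_
    rw [← ht']
    split_ifs with hk
    · rw [coe_decompose_mul_of_right_mem_of_le (T.deg (W ⊗ P.two.S)) (htk k) hk, poly_apply,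
        eval₂_monomial, ← ht']
      congr 1
      exact (dec_pull _ _ _).symm
    · rw [map_zero]
      exact (coe_decompose_mul_of_right_mem_of_not_le (T.deg (W ⊗ P.two.S)) (htk k) hk).symm
  have hff : f' = f := (poly P W).injective key
  have hcf : cf P W k (poly P W f) = f'.coeff k := by
    rw [hff]; simp [cf]
  have hco : f'.coeff k = if k ∈ Finset.range (f.natDegree + 1) then
      (if k ≤ D then (decompose (T.deg W) (f.coeff k) (D - k) : T.CH W) else 0) else 0 := by
    rw [hf', finsetSum_coeff]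
    rw [← Finset.sum_ite_eq (Finset.range (f.natDegree + 1)) k
      (fun k => if k ≤ D then (decompose (T.deg W) (f.coeff k) (D - k) : T.CH W) else 0)]
    refine Finset.sum_congr rfl fun j _ => ?_
    by_cases hj : k = j
    · subst hj
      rw [if_pos rfl]
      split_ifs <;> simp
    · split_ifs with h1
      · rw [coeff_monomial, if_neg (fun h => hj h.symm)]
      · simp
  rw [hcf, hco]
  constructor
  · intro hk
    split_ifs
    · exact SetLike.coe_mem _
    · exact Submodule.zero_mem _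
  · intro hk
    split_ifs
    · omega
    · rfl
    · rfl

end Pool.Agent.H94.BS
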