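import Pool.Agent.H94.BS.Defs

/-! The fields of `PrestableCurves` with `res` unfolded to `pull`. -/

open CategoryTheory MonoidalCategory CartesianMonoidalCategory Polynomial

universe u v w

namespace Pool.Agent.H94.BS

variable {C : Type u} [Category.{v} C] [CartesianMonoidalCategory C]
variable {T : ChowTheory.{u, v, w} C} (P : PrestableCurves T)

lemma c_pushp_ψ (W : C) (g n : ℕ) (h : 2 < 2 * g + n) (x : T.CH (W ⊗ P.cur.Mb g n)) :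
    P.uni.pushp W g n (T.pull (snd W (P.cur.Mb g (n + 1))) (P.cur.ψ g (n + 1) (n + 1)) *
      T.pull (W ◁ P.uni.p g n h) x) = (2 * g + n - 2 : ℚ) • x :=
  P.uni.pushp_ψ W g n h x

lemma c_ψ_kills (W : C) (g n : ℕ) (h : 2 < 2 * g + n) (y : T.CH (W ⊗ P.cur.Mb g (n + 1)))
    (hy : T.pull (W ◁ P.uni.u g n) y = 0) :
    T.pull (snd W (P.cur.Mb g (n + 1))) (P.cur.ψ g (n + 1) (n + 1)) * y = 0 :=
  P.uni.ψ_kills W g n h y hy

lemma c_pull_pt : T.pull P.two.pt P.two.t = 0 := P.two.res_pt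

lemma c_chain_oc : T.OpenClosed P.chain.opn P.chain.cls 1
    (T.pull (fst P.two.S P.two.S) P.two.t - T.pull (snd P.two.S P.two.S) P.two.t) :=
  P.chain.oc

lemma c_ψ₁_opn : T.pull P.two.s P.chain.ψ₁ = P.two.t := P.chain.ψ₁_opn

lemma c_ψ₁_cls : T.pull ((P.two.s ⊗ₘ P.two.s) ≫ P.two.glue) P.chain.ψ₁ =
    T.pull (fst P.two.S P.two.S) P.two.t := P.chain.ψ₁_cls

lemma c_int_ψ (W : C) (k i : ℕ) (hi : i = 1 ∨ i = 2) (x : T.CH (W ⊗ P.cur.Mb 0 (k + 3))) :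
    P.point.int W k (T.pull (snd W (P.cur.Mb 0 (k + 3))) (P.cur.ψ 0 (k + 3) i ^ k) * x) =
      T.pull (lift (𝟙 W) (toUnit W ≫ P.point.b k)) x :=
  P.point.int_ψ W k i hi x

lemma c_oc_one (k : ℕ) :
    T.OpenClosed (P.nbhd.opn k 1 (Or.inl rfl)) (P.nbhd.cls k 1 (Or.inl rfl)) 1
    (T.pull (snd (P.cur.Mb 0 (k + 3)) P.two.S) P.two.t -
      T.pull (fst (P.cur.Mb 0 (k + 3)) P.two.S) (P.cur.ψ 0 (k + 3) 1)) :=
  P.nbhd.oc_one k

lemma c_oc_two (k : ℕ) :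
    T.OpenClosed (P.nbhd.opn k 2 (Or.inr rfl)) (P.nbhd.cls k 2 (Or.inr rfl)) 1
    (- T.pull (snd (P.cur.Mb 0 (k + 3)) P.two.S) P.two.t -
      T.pull (fst (P.cur.Mb 0 (k + 3)) P.two.S) (P.cur.ψ 0 (k + 3) 2)) :=
  P.nbhd.oc_two k

lemma push_zero {U X Z : C} {j : U ⟶ X} {i : Z ⟶ X} {c : ℕ} {e : T.CH Z}
    (h : T.OpenClosed j i c e) : T.push h 0 = 0 := by
  have := T.push_add h 0 0
  rw [add_zero] at this
  exact left_eq_add.mp this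

end Pool.Agent.H94.BS
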