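import Mathlib

/-!
# Chow theories and the moduli stacks of prestable curves (MP_1ee59b_ag)

`ChowTheory` lists the part of the general theory of Chow rings (with rational coefficients) of
smooth algebraic stacks which the proof uses. `PrestableCurves` lists the facts about the stacks
of prestable and of stable curves which the proof uses; `Stratification` describes the
stratification of the stack of prestable curves by the configuration of the unstable components.
The objects of the category `C` are the smooth algebraic stacks over the ground field with affine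
stabilisers which are exhausted by open substacks of finite type with complements of codimension
tending to infinity, the morphisms are the morphisms of stacks up to 2-isomorphism, and the
product is the product over the ground field.
-/

open CategoryTheory MonoidalCategory CartesianMonoidalCategory Polynomial

universe u v w

namespace Pool.Agent.H94.BS

/-- A theory of Chow rings with rational coefficients on a category `C` of smooth algebraic
stacks (Kresch). -/
structure ChowTheory (C : Type u) [Category.{v} C] [CartesianMonoidalCategory C] where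
  /-- the Chow ring, the direct sum of the groups `CH^d` -/
  CH : C → Type w
  [commRing : ∀ X, CommRing (CH X)]
  [algebra : ∀ X, Algebra ℚ (CH X)]
  /-- the Chow group in codimension `d` -/
  deg : ∀ X, ℕ → Submodule ℚ (CH X)
  [graded : ∀ X, GradedAlgebra (deg X)]
  /-- pull-back along a morphism of smooth stacks -/
  pull : ∀ {X Y : C}, (X ⟶ Y) → (CH Y →ₐ[ℚ] CH X)
  pull_id : ∀ (X : C) (x : CH X), pull (𝟙 X) x = x
  pull_comp : ∀ {X Y Z : C} (f : X ⟶ Y) (g : Y ⟶ Z) (z : CH Z),
    pull (f ≫ g) z = pull f (pull g z)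
  pull_deg : ∀ {X Y : C} (f : X ⟶ Y) (d : ℕ) (y : CH Y), y ∈ deg Y d → pull f y ∈ deg X d
  /-- `OpenClosed j i c e` : `j : U ⟶ X` is an open immersion, `i : Z ⟶ X` is a closed immersion
  of a smooth stack of pure codimension `c` onto the complement of `U`, and `e` is the top Chern
  class (Euler class) of the normal bundle of `i`. -/
  OpenClosed : ∀ {U X Z : C}, (U ⟶ X) → (Z ⟶ X) → ℕ → CH Z → Prop
  /-- push-forward `i_*` along the closed immersion -/
  push : ∀ {U X Z : C} {j : U ⟶ X} {i : Z ⟶ X} {c : ℕ} {e : CH Z},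
    OpenClosed j i c e → CH Z → CH X
  push_add : ∀ {U X Z : C} {j : U ⟶ X} {i : Z ⟶ X} {c : ℕ} {e : CH Z}
    (h : OpenClosed j i c e) (z z' : CH Z), push h (z + z') = push h z + push h z'
  push_deg : ∀ {U X Z : C} {j : U ⟶ X} {i : Z ⟶ X} {c : ℕ} {e : CH Z}
    (h : OpenClosed j i c e) (d : ℕ) (z : CH Z), z ∈ deg Z d → push h z ∈ deg X (d + c)
  /-- localisation: a class which vanishes on the open part is a push-forward from the closed
  part -/
  push_exact : ∀ {U X Z : C} {j : U ⟶ X} {i : Z ⟶ X} {c : ℕ} {e : CH Z}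
    (h : OpenClosed j i c e) (x : CH X), pull j x = 0 → ∃ z : CH Z, push h z = x
  /-- self-intersection formula -/
  pull_push : ∀ {U X Z : C} {j : U ⟶ X} {i : Z ⟶ X} {c : ℕ} {e : CH Z}
    (h : OpenClosed j i c e) (z : CH Z), pull i (push h z) = e * z
  /-- the product of an open and closed decomposition with a smooth stack `W` -/
  openClosed_prod : ∀ {U X Z : C} {j : U ⟶ X} {i : Z ⟶ X} {c : ℕ} {e : CH Z}
    (_ : OpenClosed j i c e) (W : C), OpenClosed (W ◁ j) (W ◁ i) c (pull (snd W Z) e)

attribute [instance] ChowTheory.commRing ChowTheory.algebra ChowTheory.graded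

section

variable {C : Type u} [Category.{v} C] [CartesianMonoidalCategory C]

/-- the pull-back `f^* y` -/
def ChowTheory.res (T : ChowTheory.{u, v, w} C) {X Y : C} (f : X ⟶ Y) (y : T.CH Y) : T.CH X :=
  T.pull f y

/-- `x` is a class of codimension `d` -/
def ChowTheory.InDeg (T : ChowTheory.{u, v, w} C) (X : C) (d : ℕ) (x : T.CH X) : Prop :=
  x ∈ T.deg X d

/-- `CH (W × S) = CH (W)[t]` for every `W`, where `t` is pulled back from `S` -/
def ChowTheory.IsPolynomial (T : ChowTheory.{u, v, w} C) (S : C) (t : T.CH S) : Prop :=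
  ∀ W : C, Function.Bijective (eval₂ (T.pull (fst W S)).toRingHom (T.pull (snd W S) t))

/-- The stacks of prestable and of stable curves and the forgetful morphisms. -/
structure Curves (T : ChowTheory.{u, v, w} C) where
  /-- `M g n` : the stack of prestable curves of genus `g` with `n` markings (for
  `(g, n) = (1, 0)`, which plays no role, put a point) -/
  M : ℕ → ℕ → C
  /-- `Mb g n` : the open substack of stable curves, empty if `2 g + n <= 2` -/
  Mb : ℕ → ℕ → C
  /-- the morphism of the problem: keep the first `n` of the `N` markings of a stable curve, and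
  contract nothing -/
  F : ∀ (g : ℕ) {n N : ℕ}, n ≤ N → (Mb g N ⟶ M g n)
  /-- keep the first `n` of the `N` markings of a prestable curve, and contract nothing -/
  π : ∀ (g : ℕ) {n N : ℕ}, n ≤ N → (M g N ⟶ M g n)
  F_π : ∀ (g : ℕ) {n n' N : ℕ} (h : n ≤ n') (h' : n' ≤ N), F g h' ≫ π g h = F g (h.trans h')
  unstable_empty : ∀ g n : ℕ, ¬ 2 < 2 * g + n → Subsingleton (T.CH (Mb g n))
  /-- `ψ g n i` : the cotangent line class at the marking `i`, `1 <= i <= n` -/
  ψ : ∀ g n : ℕ, ℕ → T.CH (Mb g n)

variable {T : ChowTheory.{u, v, w} C}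

/-- The universal curve over the stack of stable curves. -/
structure UniversalCurve (P : Curves T) where
  /-- the universal curve over the stack of stable curves: forget the marking `n + 1` and
  contract -/
  p : ∀ g n : ℕ, 2 < 2 * g + n → (P.Mb g (n + 1) ⟶ P.Mb g n)
  /-- push-forward along the universal curve, over an arbitrary base `W` -/
  pushp : ∀ (W : C) (g n : ℕ), T.CH (W ⊗ P.Mb g (n + 1)) → T.CH (W ⊗ P.Mb g n)
  pushp_zero : ∀ (W : C) (g n : ℕ), pushp W g n 0 = 0
  /-- projection formula and degree `2 g - 2 + n` of the cotangent line class -/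
  pushp_ψ : ∀ (W : C) (g n : ℕ) (h : 2 < 2 * g + n) (x : T.CH (W ⊗ P.Mb g n)),
    pushp W g n (T.res (snd W (P.Mb g (n + 1))) (P.ψ g (n + 1) (n + 1)) * T.res (W ◁ p g n h) x)
      = (2 * g + n - 2 : ℚ) • x
  /-- `U g n` : the open substack of `Mb g (n + 1)` where the marking `n + 1` does not lie on a
  rational component with exactly three special points -/
  U : ℕ → ℕ → C
  u : ∀ g n : ℕ, U g n ⟶ P.Mb g (n + 1)
  /-- on `U g n` forgetting the marking `n + 1` contracts nothing -/
  u_F : ∀ (g n : ℕ) (h : 2 < 2 * g + n),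
    u g n ≫ P.F g (Nat.le_succ n) = u g n ≫ p g n h ≫ P.F g (le_refl n)
  /-- the cotangent line class at the marking `n + 1` kills all classes supported on the
  complement of `U g n` -/
  ψ_kills : ∀ (W : C) (g n : ℕ), 2 < 2 * g + n → ∀ y : T.CH (W ⊗ P.Mb g (n + 1)),
    T.res (W ◁ u g n) y = 0 →
      T.res (snd W (P.Mb g (n + 1))) (P.ψ g (n + 1) (n + 1)) * y = 0

/-- Smooth rational curves with two markings, and the gluing of two-pointed curves. -/
structure TwoPointed (P : Curves T) where
  /-- `S` : the open substack of `M 0 2` of smooth curves, the classifying stack of the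
  multiplicative group -/
  S : C
  s : S ⟶ P.M 0 2
  /-- the cotangent line class at the first marking; the one at the second marking is `- t` -/
  t : T.CH S
  t_deg : T.InDeg S 1 t
  S_poly : T.IsPolynomial S t
  /-- a point of `S` -/
  pt : 𝟙_ C ⟶ S
  res_pt : T.res pt t = 0
  /-- glue the second marking of the first curve to the first marking of the second curve -/
  glue : P.M 0 2 ⊗ P.M 0 2 ⟶ P.M 0 2
  /-- the same for stable curves with further markings -/
  glueSt : ∀ a b : ℕ, 1 ≤ a → 1 ≤ b →
    (P.Mb 0 (2 + a) ⊗ P.Mb 0 (2 + b) ⟶ P.Mb 0 (2 + (a + b)))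
  glueSt_F : ∀ (a b : ℕ) (ha : 1 ≤ a) (hb : 1 ≤ b),
    glueSt a b ha hb ≫ P.F 0 (Nat.le_add_right 2 (a + b)) =
      (P.F 0 (Nat.le_add_right 2 a) ⊗ₘ P.F 0 (Nat.le_add_right 2 b)) ≫ glue

/-- The neighbourhood of the chains with two components in `M 0 2`. -/
structure ChainNbhd (P : Curves T) (Q : TwoPointed P) where
  /-- the open substack of `M 0 2` of the smooth curves and of the curves with two components,
  one for each marking -/
  Ch : C
  opn : Q.S ⟶ Ch
  cls : Q.S ⊗ Q.S ⟶ Ch
  incl : Ch ⟶ P.M 0 2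
  opn_incl : opn ≫ incl = Q.s
  cls_incl : cls ≫ incl = (Q.s ⊗ₘ Q.s) ≫ Q.glue
  oc : T.OpenClosed opn cls 1 (T.res (fst Q.S Q.S) Q.t - T.res (snd Q.S Q.S) Q.t)
  /-- the cotangent line class at the first marking on `M 0 2` -/
  ψ₁ : T.CH (P.M 0 2)
  ψ₁_opn : T.res Q.s ψ₁ = Q.t
  ψ₁_cls : T.res ((Q.s ⊗ₘ Q.s) ≫ Q.glue) ψ₁ = T.res (fst Q.S Q.S) Q.t

/-- Points and cotangent line classes on `Mb 0 (k + 3)`. -/
structure PointClass (P : Curves T) where
  /-- a point of `Mb 0 (k + 3)` which is a smooth curve -/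
  b : ∀ k : ℕ, 𝟙_ C ⟶ P.Mb 0 (k + 3)
  /-- push-forward along the proper projection to `W` -/
  int : ∀ (W : C) (k : ℕ), T.CH (W ⊗ P.Mb 0 (k + 3)) → T.CH W
  int_zero : ∀ (W : C) (k : ℕ), int W k 0 = 0
  /-- the `k`-th power of the cotangent line class at the marking `1` or `2` is the class of a
  point -/
  int_ψ : ∀ (W : C) (k i : ℕ), (i = 1 ∨ i = 2) → ∀ x : T.CH (W ⊗ P.Mb 0 (k + 3)),
    int W k (T.res (snd W (P.Mb 0 (k + 3))) (P.ψ 0 (k + 3) i ^ k) * x) =
      T.res (lift (𝟙 W) (toUnit W ≫ b k)) x
  /-- and the next power vanishes (dimension) -/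
  ψ_pow : ∀ k i : ℕ, (i = 1 ∨ i = 2) → P.ψ 0 (k + 3) i ^ (k + 1) = 0

/-- Bubbles at the markings `1` and `2`: gluing a two-pointed rational curve to a marking. -/
structure Bubbles (P : Curves T) (Q : TwoPointed P) (B : PointClass P) where
  /-- glue a two-pointed curve to the marking `i` (`i = 1, 2`) of a curve with `k + 3` markings:
  for `i = 1` its second marking is glued, its first marking is the new marking `1`; for `i = 2`
  its first marking is glued, its second marking is the new marking `2` -/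
  bub : ∀ k i : ℕ, (i = 1 ∨ i = 2) → (P.Mb 0 (k + 3) ⊗ P.M 0 2 ⟶ P.M 0 (k + 3))
  /-- the same for stable curves with further markings -/
  bubSt : ∀ k i m : ℕ, (i = 1 ∨ i = 2) → 1 ≤ m →
    (P.Mb 0 (k + 3) ⊗ P.Mb 0 (2 + m) ⟶ P.Mb 0 (k + 3 + m))
  bubSt_F : ∀ (k i m : ℕ) (hi : i = 1 ∨ i = 2) (hm : 1 ≤ m),
    bubSt k i m hi hm ≫ P.F 0 (Nat.le_add_right (k + 3) m) =
      (P.Mb 0 (k + 3) ◁ P.F 0 (Nat.le_add_right 2 m)) ≫ bub k i hi
  /-- a bubble at the marking `1` of a fixed smooth curve, after forgetting the markings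
  `3, 4, ...`, is a chain whose second component is constant -/
  bub_one : ∀ (k : ℕ) (h : 2 ≤ k + 3),
    lift (toUnit Q.S ≫ B.b k) (𝟙 Q.S) ≫ (P.Mb 0 (k + 3) ◁ Q.s) ≫ bub k 1 (Or.inl rfl) ≫
        P.π 0 h =
      lift (𝟙 Q.S) (toUnit Q.S ≫ Q.pt) ≫ (Q.s ⊗ₘ Q.s) ≫ Q.glue
  /-- the same at the marking `2`, where the first component is constant -/
  bub_two : ∀ (k : ℕ) (h : 2 ≤ k + 3),
    lift (toUnit Q.S ≫ B.b k) (𝟙 Q.S) ≫ (P.Mb 0 (k + 3) ◁ Q.s) ≫ bub k 2 (Or.inr rfl) ≫
        P.π 0 h =
      lift (toUnit Q.S ≫ Q.pt) (𝟙 Q.S) ≫ (Q.s ⊗ₘ Q.s) ≫ Q.glue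

/-- The neighbourhood of the locus of curves with one bubble in `M 0 (k + 3)`. -/
structure BubbleNbhd (P : Curves T) (Q : TwoPointed P) (B : PointClass P)
    (U : Bubbles P Q B) where
  /-- the open substack of `M 0 (k + 3)` of the stable curves and of the stable curves with the
  marking `i` replaced by a bubble carrying the marking `i` and a node -/
  Bu : ∀ _k _i : ℕ, C
  opn : ∀ k i : ℕ, (i = 1 ∨ i = 2) → (P.Mb 0 (k + 3) ⟶ Bu k i)
  cls : ∀ k i : ℕ, (i = 1 ∨ i = 2) → (P.Mb 0 (k + 3) ⊗ Q.S ⟶ Bu k i)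
  incl : ∀ k i : ℕ, (i = 1 ∨ i = 2) → (Bu k i ⟶ P.M 0 (k + 3))
  opn_incl : ∀ (k i : ℕ) (hi : i = 1 ∨ i = 2), opn k i hi ≫ incl k i hi = P.F 0 (le_refl _)
  cls_incl : ∀ (k i : ℕ) (hi : i = 1 ∨ i = 2),
    cls k i hi ≫ incl k i hi = (P.Mb 0 (k + 3) ◁ Q.s) ≫ U.bub k i hi
  oc_one : ∀ k : ℕ, T.OpenClosed (opn k 1 (Or.inl rfl)) (cls k 1 (Or.inl rfl)) 1
    (T.res (snd (P.Mb 0 (k + 3)) Q.S) Q.t - T.res (fst (P.Mb 0 (k + 3)) Q.S) (P.ψ 0 (k + 3) 1))
  oc_two : ∀ k : ℕ, T.OpenClosed (opn k 2 (Or.inr rfl)) (cls k 2 (Or.inr rfl)) 1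
    (- T.res (snd (P.Mb 0 (k + 3)) Q.S) Q.t - T.res (fst (P.Mb 0 (k + 3)) Q.S) (P.ψ 0 (k + 3) 2))

variable (T) in
/-- The stacks of prestable and of stable curves, the morphisms between them which the proof
uses, and the known facts about them which the proof uses. -/
structure PrestableCurves where
  cur : Curves T
  uni : UniversalCurve cur
  two : TwoPointed cur
  chain : ChainNbhd cur two
  point : PointClass cur
  bubble : Bubbles cur two point
  nbhd : BubbleNbhd cur two point bubble

/-- the product of `A` with the `r`-th power of `Y` -/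
def Pow (A Y : C) : ℕ → C
  | 0 => A
  | r + 1 => Pow A Y r ⊗ Y

/-- the product of `A` with the stacks `Y 0, ..., Y (r - 1)` -/
def PowFam (A : C) (Y : ℕ → C) : ℕ → C
  | 0 => A
  | r + 1 => PowFam A Y r ⊗ Y r

/-- the product of the identity of `A` with morphisms `f i : Y i ⟶ Y'` -/
def famMap (A : C) (Y : ℕ → C) (Y' : C) (f : ∀ i, Y i ⟶ Y') : ∀ r, PowFam A Y r ⟶ Pow A Y' r
  | 0 => 𝟙 A
  | r + 1 => famMap A Y Y' f r ⊗ₘ f r

/-- the product of the identity of `A` with `r` copies of `f` -/
def powMap (A : C) {Y Y' : C} (f : Y ⟶ Y') : ∀ r, Pow A Y r ⟶ Pow A Y' r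
  | 0 => 𝟙 A
  | r + 1 => powMap A f r ⊗ₘ f

/-- the class `a + ε 0 * t_0 + ... + ε (r - 1) * t_(r - 1)` on the product of `A` with the
`r`-th power of `S` -/
def linForm (S : C) (t : T.CH S) (A : C) (a : T.CH A) (ε : ℕ → ℚ) : ∀ r, T.CH (Pow A S r)
  | 0 => a
  | r + 1 => T.pull (fst (Pow A S r) S) (linForm S t A a ε r) + ε r • T.pull (snd (Pow A S r) S) t

/-- the product of the classes `linForm` for the members of a list -/
def linProd (S : C) (t : T.CH S) (A : C) (r : ℕ) (L : List (T.CH A × (ℕ → ℚ))) :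
    T.CH (Pow A S r) :=
  (L.map (fun x => linForm S t A x.1 x.2 r)).prod

/-- the product of the identity of `A` with the morphisms `F : Mb 0 (2 + m i) ⟶ M 0 2` -/
def stableMap (P : Curves T) (A : C) (m : ℕ → ℕ) (r : ℕ) :
    PowFam A (fun i => P.Mb 0 (2 + m i)) r ⟶ Pow A (P.M 0 2) r :=
  famMap A (fun i => P.Mb 0 (2 + m i)) (P.M 0 2) (fun i => P.F 0 (Nat.le_add_right 2 (m i))) r

/-- A stratum `i : Z ⟶ M g n` of curves with a fixed configuration of unstable components
(rational components with at most two special points), at least one unstable component being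
present; `c` is the number of nodes on unstable components, `e` is the Euler class of the normal
bundle. -/
structure UnstableStratum (P : Curves T) (Q : TwoPointed P) (g n : ℕ) (Z : C) (i : Z ⟶ P.M g n)
    (c : ℕ) (e : T.CH Z) where
  /-- the product of the stacks `Mb g_j n_j` of the stable pieces which are left after deleting
  the unstable components -/
  A : C
  /-- the number of unstable components -/
  r : ℕ
  r_pos : 1 ≤ r
  r_le : r ≤ c + 1
  /-- glue the stable pieces and two-pointed curves at the places of the unstable components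
  (forget the second marking if the component has one special point, and both markings if it has
  none) -/
  ξ : Pow A (P.M 0 2) r ⟶ P.M g n
  /-- the number of markings which are forgotten -/
  forgotten : ℕ
  forgotten_le : forgotten ≤ r + 1
  /-- the same gluing for stable curves: the further markings and the forgotten markings become
  the markings `n + 1, n + 2, ...` -/
  ξSt : ∀ (m : ℕ → ℕ) (_ : ∀ i, 1 ≤ m i) (N : ℕ)
    (_ : N = n + forgotten + ∑ i ∈ Finset.range r, m i),
    (PowFam A (fun i => P.Mb 0 (2 + m i)) r ⟶ P.Mb g N)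
  ξSt_F : ∀ (m : ℕ → ℕ) (hm : ∀ i, 1 ≤ m i) (N : ℕ)
    (hN : N = n + forgotten + ∑ i ∈ Finset.range r, m i) (h : n ≤ N),
    ξSt m hm N hN ≫ P.F g h = stableMap P A m r ≫ ξ
  /-- the gluing restricted to smooth two-pointed curves maps onto the stratum: it is the product
  of the identity of `A` with morphisms from `S` to the stacks of smooth rational curves with
  two, one or no markings, followed by the quotient by the automorphism group of the
  configuration -/
  q : Pow A Q.S r ⟶ Z
  q_comp : q ≫ i = powMap A Q.s r ≫ ξ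
  q_inj : ∀ z : T.CH Z, T.res q z = 0 → z = 0
  /-- for each node on an unstable component, minus the sum of the two cotangent line classes:
  `(a, ε)` stands for the class `a + ε 0 * t_0 + ...` -/
  nodes : List (T.CH A × (ℕ → ℚ))
  nodes_nonzero : ∀ x ∈ nodes, ∃ i < r, x.2 i ≠ 0
  euler : T.res q e = linProd Q.S Q.t A r nodes

/-- The stratification of `M g n` by the configuration of the unstable components, as far as it
is visible in codimension `d`: open substacks `V 0`, `V 1`, ... of `M g n`, where `V 0` is the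
stack of stable curves and `V (k + 1)` is the union of `V k` and of one more stratum `Z k`. -/
structure Stratification (P : Curves T) (Q : TwoPointed P) (g n d : ℕ) where
  V : ℕ → C
  inc : ∀ k, V k ⟶ P.M g n
  next : ∀ k, V k ⟶ V (k + 1)
  next_inc : ∀ k, next k ≫ inc (k + 1) = inc k
  V₀ : V 0 ⟶ P.Mb g n
  V₀_F : V₀ ≫ P.F g (le_refl n) = inc 0
  Z : ℕ → C
  i : ∀ k, Z k ⟶ V (k + 1)
  c : ℕ → ℕ
  e : ∀ k, T.CH (Z k)
  /-- the number of strata -/
  K : ℕ
  oc : ∀ k < K, T.OpenClosed (next k) (i k) (c k) (e k)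
  stratum : ∀ k < K, UnstableStratum P Q g n (Z k) (i k ≫ inc (k + 1)) (c k) (e k)
  /-- the complement of `V K` has codimension greater than `d` -/
  top : ∀ x, T.InDeg (P.M g n) d x → T.res (inc K) x = 0 → x = 0

end

end Pool.Agent.H94.BS
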