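import Pool.Agent.H94.BS.Coef

/-! The stable part, the chain and the bubbles; the key statement about two-pointed curves. -/

open CategoryTheory MonoidalCategory CartesianMonoidalCategory Polynomial

universe u v w

namespace Pool.Agent.H94.BS

variable {C : Type u} [Category.{v} C] [CartesianMonoidalCategory C]
variable {T : ChowTheory.{u, v, w} C} (P : PrestableCurves T)

lemma pull_whiskerLeft {W X Y Z : C} (f : X ⟶ Y) (g : Y ⟶ Z) (z : T.CH (W ⊗ Z)) :
    T.pull (W ◁ (f ≫ g)) z = T.pull (W ◁ f) (T.pull (W ◁ g) z) := by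
  rw [MonoidalCategory.whiskerLeft_comp, T.pull_comp]

/-- if the pull-back to `Mb g N` vanishes for one `N`, the restriction to the stable locus
vanishes -/
lemma stable_vanish (W : C) (g : ℕ) (k : ℕ) : ∀ (n : ℕ) (_ : 2 < 2 * g + n) (N : ℕ)
    (_ : N = n + k) (h : n ≤ N) (x : T.CH (W ⊗ P.cur.M g n)),
    T.pull (W ◁ P.cur.F g h) x = 0 → T.pull (W ◁ P.cur.F g (le_refl n)) x = 0 := by
  induction k with
  | zero =>
    intro n _ N hN h x hx
    obtain rfl : N = n := by simpa using hN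
    exact hx
  | succ k ih =>
    intro n hs N hN h x hx
    have hN' : N = (n + 1) + k := by omega
    have h' : n + 1 ≤ N := by omega
    have h1 : T.pull (W ◁ P.cur.F g h') (T.pull (W ◁ P.cur.π g (Nat.le_succ n)) x) = 0 := by
      rw [← pull_whiskerLeft, P.cur.F_π g (Nat.le_succ n) h']
      exact hx
    have h2 := ih (n + 1) (by omega) N hN' h' _ h1
    rw [← pull_whiskerLeft, P.cur.F_π] at h2
    set y := T.pull (W ◁ P.cur.F g (le_refl n)) x with hy
    have h3 : T.pull (W ◁ P.uni.u g n) (T.pull (W ◁ P.uni.p g n hs) y) = 0 := by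
      rw [hy, ← pull_whiskerLeft, ← pull_whiskerLeft, Category.assoc, ← P.uni.u_F g n hs,
        pull_whiskerLeft]
      rw [show T.pull (W ◁ P.cur.F g (Nat.le_succ n)) x = 0 from h2, map_zero]
    have h4 := c_ψ_kills P W g n hs _ h3
    have h5 := c_pushp_ψ P W g n hs y
    rw [h4, P.uni.pushp_zero] at h5
    have h6 : (2 * g + n - 2 : ℚ) ≠ 0 := by
      have : (2 : ℚ) < 2 * g + n := by exact_mod_cast hs
      intro h0
      linarith
    exact (smul_eq_zero.mp h5.symm).resolve_left h6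

/-- restriction to the open part is restriction to the diagonal of the chain locus -/
lemma chain_restrict (W : C) (x : T.CH (W ⊗ P.cur.M 0 2)) :
    T.pull (W ◁ (lift (𝟙 P.two.S) (𝟙 P.two.S) ≫ (P.two.s ⊗ₘ P.two.s) ≫ P.two.glue)) x = T.pull (W ◁ P.two.s) x := by
  obtain ⟨f, hf⟩ := (poly P W).surjective (T.pull (W ◁ P.two.s) x)
  set y := T.pull (W ◁ P.chain.incl) x with hy
  set y' := eval₂ (T.pull (fst W P.chain.Ch)).toRingHom (T.pull (snd W P.chain.Ch) (T.pull P.chain.incl P.chain.ψ₁)) f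
    with hy'
  have hoc := T.openClosed_prod (c_chain_oc P) W
  have h0 : T.pull (W ◁ P.chain.opn) (y - y') = 0 := by
    rw [map_sub, sub_eq_zero, hy, ← pull_whiskerLeft, P.chain.opn_incl, ← hf, poly_apply, hy']
    have := Polynomial.hom_eval₂ f (T.pull (fst W P.chain.Ch)).toRingHom
      (T.pull (W ◁ P.chain.opn)).toRingHom (T.pull (snd W P.chain.Ch) (T.pull P.chain.incl P.chain.ψ₁))
    refine Eq.symm (this.trans ?_)
    congr 1
    · ext z
      change T.pull (W ◁ P.chain.opn) (T.pull (fst W P.chain.Ch) z) = T.pull (fst W P.two.S) z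
      rw [← T.pull_comp, whiskerLeft_fst]
    · change T.pull (W ◁ P.chain.opn) (T.pull (snd W P.chain.Ch) (T.pull P.chain.incl P.chain.ψ₁)) =
        T.pull (snd W P.two.S) P.two.t
      rw [← T.pull_comp, whiskerLeft_snd, T.pull_comp, ← T.pull_comp P.chain.opn, P.chain.opn_incl,
        c_ψ₁_opn P]
  obtain ⟨z, hz⟩ := T.push_exact hoc _ h0
  have h1 : T.pull (W ◁ P.chain.cls) (y - y') =
      T.pull (snd W (P.two.S ⊗ P.two.S)) (T.pull (fst P.two.S P.two.S) P.two.t - T.pull (snd P.two.S P.two.S) P.two.t) * z := by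
    rw [← hz, T.pull_push hoc]
  set Δ := W ◁ lift (𝟙 P.two.S) (𝟙 P.two.S) with hΔ
  have h2 : T.pull Δ (T.pull (W ◁ P.chain.cls) (y - y')) = 0 := by
    rw [h1, map_mul]
    have : T.pull Δ (T.pull (snd W (P.two.S ⊗ P.two.S))
        (T.pull (fst P.two.S P.two.S) P.two.t - T.pull (snd P.two.S P.two.S) P.two.t)) = 0 := by
      rw [← T.pull_comp, map_sub, ← T.pull_comp, ← T.pull_comp]
      simp [hΔ]
    rw [this, zero_mul]
  rw [map_sub, map_sub, sub_eq_zero] at h2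
  have h3 : T.pull (W ◁ (lift (𝟙 P.two.S) (𝟙 P.two.S) ≫ (P.two.s ⊗ₘ P.two.s) ≫ P.two.glue)) x =
      T.pull Δ (T.pull (W ◁ P.chain.cls) y) := by
    rw [pull_whiskerLeft, ← P.chain.cls_incl, pull_whiskerLeft]
  rw [h3, h2, hy', ← hf, poly_apply, ← T.pull_comp]
  have := Polynomial.hom_eval₂ f (T.pull (fst W P.chain.Ch)).toRingHom
      (T.pull (Δ ≫ W ◁ P.chain.cls)).toRingHom (T.pull (snd W P.chain.Ch) (T.pull P.chain.incl P.chain.ψ₁))
  refine this.trans ?_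
  congr 1
  · ext z
    change T.pull (Δ ≫ W ◁ P.chain.cls) (T.pull (fst W P.chain.Ch) z) = T.pull (fst W P.two.S) z
    rw [← T.pull_comp]
    simp [hΔ]
  · change T.pull (Δ ≫ W ◁ P.chain.cls) (T.pull (snd W P.chain.Ch) (T.pull P.chain.incl P.chain.ψ₁)) =
        T.pull (snd W P.two.S) P.two.t
    rw [← T.pull_comp, Category.assoc, whiskerLeft_snd, T.pull_comp, T.pull_comp,
      ← T.pull_comp P.chain.cls, P.chain.cls_incl, c_ψ₁_cls P, ← T.pull_comp, ← T.pull_comp]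
    simp [hΔ]

/-- The statement to be proved for the coefficient `k`. -/
def Stmt (k M : ℕ) : Prop :=
  ∀ (W : C) (N : ℕ) (h : 2 ≤ N), 2 + M ≤ N → ∀ x : T.CH (W ⊗ P.cur.M 0 2),
    T.pull (W ◁ P.cur.F 0 h) x = 0 → cf P W k (T.pull (W ◁ P.two.s) x) = 0

/-- the class on the locus of chains -/
noncomputable def chainCls (W : C) (x : T.CH (W ⊗ P.cur.M 0 2)) : T.CH ((W ⊗ P.two.S) ⊗ P.two.S) :=
  T.pull ((α_ W P.two.S P.two.S).hom ≫ W ◁ ((P.two.s ⊗ₘ P.two.s) ≫ P.two.glue)) x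

/-- mixed coefficients vanish -/
lemma mixed_vanish (a b A B : ℕ) (hA : 1 ≤ A) (hB : 1 ≤ B) (ha : Stmt P a A) (hb : Stmt P b B)
    (W : C) (N : ℕ) (h : 2 ≤ N) (hN : 2 + (A + B) ≤ N) (x : T.CH (W ⊗ P.cur.M 0 2))
    (hx : T.pull (W ◁ P.cur.F 0 h) x = 0) :
    cf P W a (cf P (W ⊗ P.two.S) b (chainCls P W x)) = 0 := by
  obtain ⟨B', hB', rfl⟩ : ∃ B', B ≤ B' ∧ N = 2 + (A + B') := ⟨N - 2 - A, by omega, by omega⟩
  set x' := T.pull ((α_ W (P.cur.M 0 2) (P.cur.M 0 2)).hom ≫ W ◁ P.two.glue) x with hx'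
  set FA := P.cur.F 0 (Nat.le_add_right 2 A) with hFA
  set FB := P.cur.F 0 (Nat.le_add_right 2 B') with hFB
  set x'' := T.pull ((W ◁ FA) ▷ P.cur.M 0 2) x' with hx''
  have h1 : T.pull ((W ⊗ P.cur.Mb 0 (2 + A)) ◁ FB) x'' = 0 := by
    rw [hx'', hx', ← T.pull_comp, ← T.pull_comp]
    have e1 : (W ⊗ P.cur.Mb 0 (2 + A)) ◁ FB ≫ (W ◁ FA) ▷ P.cur.M 0 2 ≫
        (α_ W (P.cur.M 0 2) (P.cur.M 0 2)).hom ≫ W ◁ P.two.glue =
        ((α_ W (P.cur.Mb 0 (2 + A)) (P.cur.Mb 0 (2 + B'))).hom ≫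
          W ◁ P.two.glueSt A B' hA (hB.trans hB')) ≫ W ◁ P.cur.F 0 h := by
      rw [Category.assoc, ← MonoidalCategory.whiskerLeft_comp,
        P.two.glueSt_F A B' hA (hB.trans hB')]
      simp only [MonoidalCategory.whiskerLeft_comp, ← Category.assoc]
      congr 1
      ext <;> simp [hFA, hFB]
    rw [Category.assoc, e1, T.pull_comp, hx, map_zero]
  have h2 := hb (W ⊗ P.cur.Mb 0 (2 + A)) (2 + B') (Nat.le_add_right 2 B') (by omega) x'' h1
  set y := cf P (W ⊗ P.cur.M 0 2) b (T.pull ((W ⊗ P.cur.M 0 2) ◁ P.two.s) x') with hy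
  have h3 : T.pull (W ◁ FA) y = 0 := by
    rw [hy, ← cf_pull, ← T.pull_comp, ← MonoidalCategory.whisker_exchange, T.pull_comp]
    exact h2
  have h4 := ha W (2 + A) (Nat.le_add_right 2 A) le_rfl y h3
  rw [hy, ← cf_pull, hx', ← T.pull_comp, ← T.pull_comp] at h4
  rw [chainCls]
  have e2 : (α_ W P.two.S P.two.S).hom ≫ W ◁ ((P.two.s ⊗ₘ P.two.s) ≫ P.two.glue) =
      ((W ◁ P.two.s) ▷ P.two.S ≫ (W ⊗ P.cur.M 0 2) ◁ P.two.s) ≫ (α_ W (P.cur.M 0 2) (P.cur.M 0 2)).hom ≫ W ◁ P.two.glue := by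
    simp only [MonoidalCategory.whiskerLeft_comp, ← Category.assoc]
    congr 1
    ext <;> simp
  rw [e2]
  exact h4

/-- an elementary lemma on polynomials -/
lemma poly_lemma {R : Type*} [CommRing R] (g b : R[X]) (ε Ψ : R) (k : ℕ) (hε : ε * ε = 1)
    (hg : g = (Polynomial.C ε * X - Polynomial.C Ψ) * b) (h0 : ∀ j < k, g.coeff j = 0) (hΨ : Ψ ^ (k + 1) = 0) :
    Ψ ^ k * g.coeff k = 0 := by
  have h1 : g.eval (ε * Ψ) = 0 := by
    rw [hg]
    simp only [eval_mul, eval_sub, eval_C, eval_X]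
    rw [← mul_assoc, hε, one_mul, sub_self, zero_mul]
  have h2 : g.eval (ε * Ψ) = g.coeff k * (ε * Ψ) ^ k := by
    rw [eval_eq_sum_range' (n := max (g.natDegree + 1) (k + 1)) (by omega)]
    rw [Finset.sum_eq_single k]
    · intro j _ hj
      rcases lt_or_gt_of_ne hj with h | h
      · rw [h0 j h, zero_mul]
      · rw [mul_pow]
        have : Ψ ^ j = 0 := by
          obtain ⟨l, rfl⟩ : ∃ l, j = (k + 1) + l := ⟨j - (k + 1), by omega⟩
          rw [pow_add, hΨ, zero_mul]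
        rw [this, mul_zero, mul_zero]
    · intro h
      exfalso
      apply h
      simp
  rw [h1] at h2
  have h3 : Ψ ^ k * g.coeff k = ε ^ k * (g.coeff k * (ε * Ψ) ^ k) := by
    have : ε ^ k * ε ^ k = 1 := by rw [← mul_pow, hε, one_pow]
    calc Ψ ^ k * g.coeff k = (ε ^ k * ε ^ k) * (Ψ ^ k * g.coeff k) := by rw [this, one_mul]
      _ = _ := by rw [mul_pow]; ring
  rw [h3, ← h2, mul_zero]

/-- the bubble at the marking `i` -/
lemma bubble_vanish (k i : ℕ) (hi : i = 1 ∨ i = 2) (ε : ℚ) (hε : ε * ε = 1)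
    (oc : T.OpenClosed (P.nbhd.opn k i hi) (P.nbhd.cls k i hi) 1
      (ε • T.pull (snd (P.cur.Mb 0 (k + 3)) P.two.S) P.two.t -
        T.pull (fst (P.cur.Mb 0 (k + 3)) P.two.S) (P.cur.ψ 0 (k + 3) i)))
    (M : ℕ → ℕ) (m : ℕ) (hM : ∀ j < k, 1 ≤ M j ∧ M j ≤ m ∧ Stmt P j (M j))
    (W : C) (h : 2 ≤ k + 3 + m) (x : T.CH (W ⊗ P.cur.M 0 2)) (hx : T.pull (W ◁ P.cur.F 0 h) x = 0) :
    cf P W k (T.pull (W ◁ (lift (toUnit P.two.S ≫ P.point.b k) (𝟙 P.two.S) ≫ (P.cur.Mb 0 (k + 3) ◁ P.two.s) ≫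
      P.bubble.bub k i hi ≫ P.cur.π 0 (show 2 ≤ k + 3 by omega))) x) = 0 := by
  set z := T.pull (W ◁ P.cur.π 0 (show 2 ≤ k + 3 by omega)) x with hz
  have hz0 : T.pull (W ◁ P.cur.F 0 (Nat.le_add_right (k + 3) m)) z = 0 := by
    rw [hz, ← pull_whiskerLeft, P.cur.F_π]
    exact hx
  have hz1 : T.pull (W ◁ P.cur.F 0 (le_refl (k + 3))) z = 0 :=
    stable_vanish P W 0 m (k + 3) (by omega) _ rfl (Nat.le_add_right (k + 3) m) z hz0
  have hoc := T.openClosed_prod oc W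
  have hy0 : T.pull (W ◁ P.nbhd.opn k i hi) (T.pull (W ◁ P.nbhd.incl k i hi) z) = 0 := by
    rw [← pull_whiskerLeft, P.nbhd.opn_incl, hz1]
  obtain ⟨β, hβ⟩ := T.push_exact hoc _ hy0
  have hG := T.pull_push hoc β
  rw [hβ, ← pull_whiskerLeft, P.nbhd.cls_incl] at hG
  set G := T.pull ((α_ W (P.cur.Mb 0 (k + 3)) P.two.S).hom ≫ W ◁ ((P.cur.Mb 0 (k + 3) ◁ P.two.s) ≫ P.bubble.bub k i hi)) z with hGdef
  obtain ⟨g, hg⟩ := (poly P (W ⊗ P.cur.Mb 0 (k + 3))).surjective G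
  obtain ⟨b, hb⟩ := (poly P (W ⊗ P.cur.Mb 0 (k + 3))).surjective (T.pull (α_ W (P.cur.Mb 0 (k + 3)) P.two.S).hom β)
  set Ψ := T.pull (snd W (P.cur.Mb 0 (k + 3))) (P.cur.ψ 0 (k + 3) i) with hΨ
  have hgb : g = (Polynomial.C (algebraMap ℚ _ ε) * X - Polynomial.C Ψ) * b := by
    apply (poly P (W ⊗ P.cur.Mb 0 (k + 3))).injective
    rw [hg, map_mul, hb, hGdef, T.pull_comp, hG, map_mul]
    congr 1
    rw [poly_apply]
    simp only [eval₂_sub, eval₂_mul, eval₂_C, eval₂_X, map_sub, map_smul]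
    rw [← T.pull_comp, ← T.pull_comp, ← T.pull_comp, ← T.pull_comp]
    congr 1
    · rw [Algebra.smul_def]
      congr 1
      · simp
      · simp
    · rw [hΨ]
      change _ = T.pull (fst (W ⊗ P.cur.Mb 0 (k + 3)) P.two.S) (T.pull (snd W (P.cur.Mb 0 (k + 3))) (P.cur.ψ 0 (k + 3) i))
      rw [← T.pull_comp]
      simp
  have hcoef : ∀ j < k, g.coeff j = 0 := by
    intro j hj
    obtain ⟨h1, h2, h3⟩ := hM j hj
    set x' := T.pull ((α_ W (P.cur.Mb 0 (k + 3)) (P.cur.M 0 2)).hom ≫ W ◁ P.bubble.bub k i hi) z with hx'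
    have h4 : T.pull ((W ⊗ P.cur.Mb 0 (k + 3)) ◁ P.cur.F 0 (Nat.le_add_right 2 m)) x' = 0 := by
      rw [hx', ← T.pull_comp]
      have e1 : (W ⊗ P.cur.Mb 0 (k + 3)) ◁ P.cur.F 0 (Nat.le_add_right 2 m) ≫ (α_ W (P.cur.Mb 0 (k + 3)) (P.cur.M 0 2)).hom ≫
          W ◁ P.bubble.bub k i hi = ((α_ W (P.cur.Mb 0 (k + 3)) (P.cur.Mb 0 (2 + m))).hom ≫
            W ◁ P.bubble.bubSt k i m hi (h1.trans h2)) ≫ W ◁ P.cur.F 0 (Nat.le_add_right (k + 3) m) := by
        rw [Category.assoc, ← MonoidalCategory.whiskerLeft_comp, P.bubble.bubSt_F k i m hi (h1.trans h2)]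
        simp only [MonoidalCategory.whiskerLeft_comp, ← Category.assoc]
        congr 1
        ext <;> simp
      rw [e1, T.pull_comp, hz0, map_zero]
    have h5 := h3 (W ⊗ P.cur.Mb 0 (k + 3)) (2 + m) (Nat.le_add_right 2 m) (by omega) x' h4
    have h6 : T.pull ((W ⊗ P.cur.Mb 0 (k + 3)) ◁ P.two.s) x' = G := by
      rw [hx', hGdef, ← T.pull_comp]
      congr 1
      simp only [MonoidalCategory.whiskerLeft_comp, ← Category.assoc]
      congr 1
      congr 1
      ext <;> simp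
    rw [h6, ← hg] at h5
    simpa [cf] using h5
  have hΨ0 : Ψ ^ (k + 1) = 0 := by
    rw [hΨ, ← map_pow, P.point.ψ_pow k i hi, map_zero]
  have hfin := poly_lemma g b (algebraMap ℚ _ ε) Ψ k (by rw [← map_mul, hε, map_one]) hgb hcoef hΨ0
  have hint := c_int_ψ P W k i hi (g.coeff k)
  rw [map_pow, ← hΨ, hfin, P.point.int_zero] at hint
  have hlast : T.pull (W ◁ (lift (toUnit P.two.S ≫ P.point.b k) (𝟙 P.two.S) ≫ (P.cur.Mb 0 (k + 3) ◁ P.two.s) ≫
      P.bubble.bub k i hi ≫ P.cur.π 0 (show 2 ≤ k + 3 by omega))) x =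
      T.pull ((lift (𝟙 W) (toUnit W ≫ P.point.b k)) ▷ P.two.S) G := by
    rw [hGdef, hz, ← T.pull_comp, ← T.pull_comp]
    congr 1
    simp only [MonoidalCategory.whiskerLeft_comp, ← Category.assoc]
    congr 1
    congr 1
    congr 1
    ext <;> simp
  rw [hlast, cf_pull]
  have : cf P (W ⊗ P.cur.Mb 0 (k + 3)) k G = g.coeff k := by
    rw [← hg]; simp [cf]
  rw [this]
  exact hint.symm

/-- the number of further markings needed for the coefficient `k` -/
def mu (k : ℕ) : ℕ := 1 + k * (k + 3) / 2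

lemma two_mu (k : ℕ) : 2 * mu k = 2 + k * (k + 3) := by
  unfold mu
  have : 2 ∣ k * (k + 3) := by
    rcases Nat.even_or_odd k with h | h
    · exact Dvd.dvd.mul_right h.two_dvd _
    · exact Dvd.dvd.mul_left (by obtain ⟨j, rfl⟩ := h; exact ⟨j + 2, by ring⟩) _
  omega

lemma mu_pos (k : ℕ) : 1 ≤ mu k := by unfold mu; omega

lemma mu_mono {j k : ℕ} (h : j ≤ k) : mu j ≤ mu k := by
  have h1 := two_mu j
  have h2 := two_mu k
  have h3 : j * (j + 3) ≤ k * (k + 3) := Nat.mul_le_mul h (by omega)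
  omega

lemma mu_step (k : ℕ) : mu (k + 1) = k + 2 + mu k := by
  have h1 := two_mu k
  have h2 := two_mu (k + 1)
  have h3 : (k + 1) * (k + 1 + 3) = k * (k + 3) + 2 * k + 4 := by ring
  omega

lemma mu_add {a b : ℕ} (ha : 1 ≤ a) (hb : 1 ≤ b) : mu a + mu b ≤ mu (a + b) := by
  have h1 := two_mu a
  have h2 := two_mu b
  have h3 := two_mu (a + b)
  have h4 : (a + b) * (a + b + 3) = a * (a + 3) + b * (b + 3) + 2 * (a * b) := by ring
  have h5 : 1 ≤ a * b := Nat.mul_pos ha hb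
  omega

/-- the key statement for every coefficient -/
theorem stmt (k : ℕ) : Stmt P k (mu k) := by
  induction k using Nat.strong_induction_on with
  | _ k ih =>
  intro W N h hN x hx
  rw [← chain_restrict]
  have e1 : W ◁ (lift (𝟙 P.two.S) (𝟙 P.two.S) ≫ (P.two.s ⊗ₘ P.two.s) ≫ P.two.glue) =
      lift (𝟙 (W ⊗ P.two.S)) (snd W P.two.S) ≫
        ((α_ W P.two.S P.two.S).hom ≫ W ◁ ((P.two.s ⊗ₘ P.two.s) ≫ P.two.glue)) := by
    simp only [MonoidalCategory.whiskerLeft_comp, ← Category.assoc]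
    congr 1
    congr 1
    ext <;> simp
  rw [e1, T.pull_comp]
  change cf P W k (T.pull _ (chainCls P W x)) = 0
  apply cf_diag
  have hm : k + 1 ≤ N - 2 ∧ ∀ j < k, mu j ≤ N - 2 - (k + 1) := by
    cases k with
    | zero => exact ⟨by have := mu_pos 0; omega, fun j hj => by omega⟩
    | succ k =>
      have := mu_step k
      refine ⟨by omega, fun j hj => ?_⟩
      have := mu_mono (show j ≤ k by omega)
      omega
  obtain ⟨m, rfl⟩ : ∃ m, N = k + 3 + m := ⟨N - (k + 3), by omega⟩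
  have hM : ∀ j < k, 1 ≤ mu j ∧ mu j ≤ m ∧ Stmt P j (mu j) := by
    intro j hj
    have := hm.2 j hj
    exact ⟨mu_pos j, by omega, ih j hj⟩
  intro a b hab
  rcases Nat.eq_zero_or_pos a with ha | ha
  · obtain rfl : b = k := by omega
    subst ha
    rw [← cf_left, chainCls, ← T.pull_comp]
    have hb := bubble_vanish P b 2 (Or.inr rfl) (-1) (by norm_num)
      (by rw [neg_one_smul]; exact c_oc_two P b) mu m hM W h x hx
    rw [P.bubble.bub_two b] at hb
    convert hb using 4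
    simp only [MonoidalCategory.whiskerLeft_comp, ← Category.assoc]
    congr 1
    congr 1
    ext <;> simp
  · rcases Nat.eq_zero_or_pos b with hb | hb
    · obtain rfl : a = k := by omega
      subst hb
      rw [← pull_pt_eq, chainCls, ← T.pull_comp]
      have ha := bubble_vanish P a 1 (Or.inl rfl) 1 (by norm_num)
        (by rw [one_smul]; exact c_oc_one P a) mu m hM W h x hx
      rw [P.bubble.bub_one a] at ha
      convert ha using 4
      simp only [MonoidalCategory.whiskerLeft_comp, ← Category.assoc]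
      congr 1
      congr 1
      ext <;> simp
    · have := mu_add ha hb
      rw [hab] at this
      exact mixed_vanish P a b (mu a) (mu b) (mu_pos a) (mu_pos b) (ih a (by omega))
        (ih b (by omega)) W _ h (by omega) x hx

/-- homogeneous form -/
theorem key (D : ℕ) (W : C) (m : ℕ) (hm : mu D ≤ m) (x : T.CH (W ⊗ P.cur.M 0 2))
    (hxD : x ∈ T.deg (W ⊗ P.cur.M 0 2) D)
    (hx : T.pull (W ◁ P.cur.F 0 (Nat.le_add_right 2 m)) x = 0) : T.pull (W ◁ P.two.s) x = 0 := by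
  apply eq_zero_of_cf
  intro k
  rcases Nat.lt_or_ge D k with h | h
  · exact (cf_deg P D _ (T.pull_deg _ _ _ hxD) k).2 h
  · exact stmt P k W (2 + m) (Nat.le_add_right 2 m) (by have := mu_mono h; omega) x hx

end Pool.Agent.H94.BS
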