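import Pool.Agent.H94.BS.Key

/-! Products of two-pointed curves, Euler classes, and the main theorem. -/

open CategoryTheory MonoidalCategory CartesianMonoidalCategory Polynomial

universe u v w

namespace Pool.Agent.H94.BS

variable {C : Type u} [Category.{v} C] [CartesianMonoidalCategory C]
variable {T : ChowTheory.{u, v, w} C} (P : PrestableCurves T)

/-- the key statement for a product of two-pointed curves -/
lemma prod_vanish (A : C) (m : ℕ → ℕ) (r : ℕ) : ∀ (D : ℕ) (_ : ∀ i < r, mu D ≤ m i)
    (x : T.CH (Pow A (P.cur.M 0 2) r)) (_ : x ∈ T.deg (Pow A (P.cur.M 0 2) r) D),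
    T.pull (stableMap P.cur A m r) x = 0 →
    T.pull (powMap A P.two.s r) x = 0 := by
  induction r with
  | zero =>
    intro D _ x _ hx
    exact hx
  | succ r ih =>
    intro D hm x hxD hx
    set f := stableMap P.cur A m r with hf
    change T.CH (Pow A (P.cur.M 0 2) r ⊗ P.cur.M 0 2) at x
    change x ∈ T.deg (Pow A (P.cur.M 0 2) r ⊗ P.cur.M 0 2) D at hxD
    change T.pull (f ⊗ₘ P.cur.F 0 (Nat.le_add_right 2 (m r))) x = 0 at hx
    change T.pull (powMap A P.two.s r ⊗ₘ P.two.s) x = 0
    set y := T.pull (Pow A (P.cur.M 0 2) r ◁ P.two.s) x with hy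
    have hyD : y ∈ T.deg _ D := T.pull_deg _ _ _ hxD
    have h1 := key P D _ (m r) (hm r (Nat.lt_succ_self r)) (T.pull (f ▷ P.cur.M 0 2) x)
      (T.pull_deg _ _ _ hxD) (by
        rw [← T.pull_comp, ← MonoidalCategory.tensorHom_def']
        exact hx)
    have h2 : T.pull (f ▷ P.two.S) y = 0 := by
      rw [hy, ← T.pull_comp, ← MonoidalCategory.whisker_exchange, T.pull_comp]
      exact h1
    rw [MonoidalCategory.tensorHom_def, T.pull_comp]
    apply eq_zero_of_cf
    intro k
    rw [cf_pull]
    rcases Nat.lt_or_ge D k with h | h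
    · rw [(cf_deg P D y hyD k).2 h, map_zero]
    · refine ih (D - k) (fun i hi => (mu_mono (Nat.sub_le D k)).trans (hm i (by omega))) _
        ((cf_deg P D y hyD k).1 h) ?_
      rw [← cf_pull, h2, cf_zero]

/-- a linear form with a non-zero coefficient is not a zero divisor -/
lemma linForm_nzd (A : C) (a : T.CH A) (ε : ℕ → ℚ) (r : ℕ) : (∃ i < r, ε i ≠ 0) →
    linForm P.two.S P.two.t A a ε r ∈ nonZeroDivisors (T.CH (Pow A P.two.S r)) := by
  induction r with
  | zero =>
    rintro ⟨i, hi, _⟩
    omega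
  | succ r ih =>
    intro hex
    have e1 : linForm P.two.S P.two.t A a ε (r + 1) = poly P (Pow A P.two.S r)
        (Polynomial.C (linForm P.two.S P.two.t A a ε r) + Polynomial.C (algebraMap ℚ _ (ε r)) * X) := by
      rw [poly_apply]
      simp only [eval₂_add, eval₂_mul, eval₂_C, eval₂_X]
      change T.pull _ _ + ε r • T.pull _ _ = _
      congr 1
      rw [Algebra.smul_def]
      congr 1
      simp
    have h2 : (Polynomial.C (linForm P.two.S P.two.t A a ε r) + Polynomial.C (algebraMap ℚ _ (ε r)) * X) ∈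
        nonZeroDivisors (T.CH (Pow A P.two.S r))[X] := by
      by_cases h0 : ε r = 0
      · have h3 : ∃ i < r, ε i ≠ 0 := by
          obtain ⟨i, hi, hne⟩ := hex
          refine ⟨i, ?_, hne⟩
          rcases Nat.lt_succ_iff_lt_or_eq.mp hi with h | h
          · exact h
          · subst h; exact absurd h0 hne
        rw [h0, map_zero, map_zero, zero_mul, add_zero]
        apply Polynomial.mem_nonZeroDivisors_of_leadingCoeff
        rw [leadingCoeff_C]
        exact ih h3
      · have h4 : (algebraMap ℚ (T.CH (Pow A P.two.S r)) (ε r)) *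
            (algebraMap ℚ (T.CH (Pow A P.two.S r)) (ε r)⁻¹) = 1 := by
          rw [← map_mul, mul_inv_cancel₀ h0, map_one]
        have h5 : Polynomial.C (linForm P.two.S P.two.t A a ε r) + Polynomial.C (algebraMap ℚ _ (ε r)) * X =
            Polynomial.C (algebraMap ℚ _ (ε r)) *
              (X + Polynomial.C (algebraMap ℚ _ (ε r)⁻¹ * linForm P.two.S P.two.t A a ε r)) := by
          rw [mul_add, ← Polynomial.C_mul, ← mul_assoc, h4, one_mul, add_comm]
        rw [h5]
        refine mul_mem ?_ (monic_X_add_C _).mem_nonZeroDivisors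
        apply IsUnit.mem_nonZeroDivisors
        exact (IsUnit.of_mul_eq_one _ h4).map Polynomial.C
    have h7 : ∀ z : T.CH (Pow A P.two.S r ⊗ P.two.S), z * poly P (Pow A P.two.S r)
        (Polynomial.C (linForm P.two.S P.two.t A a ε r) + Polynomial.C (algebraMap ℚ _ (ε r)) * X) = 0 →
        z = 0 := by
      intro z hz
      obtain ⟨z', rfl⟩ := (poly P (Pow A P.two.S r)).surjective z
      rw [← map_mul] at hz
      have h6 := (poly P (Pow A P.two.S r)).injective (hz.trans (map_zero _).symm)
      rw [(mem_nonZeroDivisors_iff_right.mp h2) _ h6, map_zero]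
    rw [e1, mem_nonZeroDivisors_iff_right]
    exact h7

/-- push-forward raises the codimension by `c` -/
lemma dec_push {U X Z : C} {j : U ⟶ X} {i : Z ⟶ X} {c : ℕ} {e : T.CH Z}
    (h : T.OpenClosed j i c e) (d : ℕ) (hd : d < c) (z : T.CH Z) :
    (DirectSum.decompose (T.deg X) (T.push h z) d : T.CH X) = 0 := by
  induction z using DirectSum.Decomposition.inductionOn (T.deg Z) with
  | zero => simp [push_zero]
  | @homogeneous k m =>
    have h1 := T.push_deg h k m.1 m.2
    rw [DirectSum.decompose_of_mem_ne _ h1 (by omega)]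
  | add a b ha hb =>
    simp only [T.push_add, DirectSum.decompose_add, DirectSum.add_apply, Submodule.coe_add, ha,
      hb, add_zero]

lemma sum_choice (r M t : ℕ) (hr : 1 ≤ r) :
    ∑ i ∈ Finset.range r, (if i = 0 then t else M) = t + (r - 1) * M := by
  obtain ⟨r, rfl⟩ : ∃ k, r = k + 1 := ⟨r - 1, by omega⟩
  rw [Finset.sum_range_succ']
  simp [add_comm]

/-- restriction to a stratum -/
lemma stratum_vanish {g n : ℕ} {Z : C} {i : Z ⟶ P.cur.M g n} {c : ℕ} {e : T.CH Z}
    (s : UnstableStratum P.cur P.two g n Z i c e) (d m : ℕ) (hc : c ≤ d)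
    (hm : (d + 1) * (mu d + 1) + 1 ≤ m) (x : T.CH (P.cur.M g n)) (hx : x ∈ T.deg (P.cur.M g n) d)
    (h0 : T.pull (P.cur.F g (Nat.le_add_right n m)) x = 0) : T.pull i x = 0 := by
  have hr := s.r_le
  have hf := s.forgotten_le
  have hp := s.r_pos
  have hrd : s.r ≤ d + 1 := by omega
  have h1 : s.r * mu d ≤ (d + 1) * mu d := Nat.mul_le_mul_right _ hrd
  have h2 : (d + 1) * (mu d + 1) = (d + 1) * mu d + (d + 1) := by ring
  have h3 : s.r * mu d = (s.r - 1) * mu d + mu d := by
    obtain ⟨k, hk⟩ : ∃ k, s.r = k + 1 := ⟨s.r - 1, by omega⟩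
    rw [hk, Nat.add_sub_cancel]; ring
  set t := m - s.forgotten - (s.r - 1) * mu d with ht
  have ht1 : mu d ≤ t := by omega
  have hmp := mu_pos d
  set mm : ℕ → ℕ := fun i => if i = 0 then t else mu d with hmm
  have hmm1 : ∀ i, mu d ≤ mm i := by
    intro i
    simp only [hmm]
    split_ifs
    · exact ht1
    · exact le_rfl
  have hN : n + m = n + s.forgotten + ∑ i ∈ Finset.range s.r, mm i := by
    rw [hmm, sum_choice _ _ _ hp]
    omega
  have h4 := s.ξSt_F mm (fun i => hmp.trans (hmm1 i)) (n + m) hN (Nat.le_add_right n m)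
  have h5 : T.pull (stableMap P.cur s.A mm s.r) (T.pull s.ξ x) = 0 := by
    rw [← T.pull_comp, ← h4, T.pull_comp, h0, map_zero]
  have h6 := prod_vanish P s.A mm s.r d (fun i _ => hmm1 i) _ (T.pull_deg _ _ _ hx) h5
  apply s.q_inj
  change T.pull s.q (T.pull i x) = 0
  rw [← T.pull_comp, s.q_comp, T.pull_comp, h6]

/-- restriction to the stable locus -/
lemma stable_locus_vanish (g n m : ℕ) (x : T.CH (P.cur.M g n))
    (h0 : T.pull (P.cur.F g (Nat.le_add_right n m)) x = 0) :
    T.pull (P.cur.F g (le_refl n)) x = 0 := by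
  by_cases hs : 2 < 2 * g + n
  · have h1 : T.pull (𝟙_ C ◁ P.cur.F g (Nat.le_add_right n m)) (T.pull (snd (𝟙_ C) (P.cur.M g n)) x) = 0 := by
      rw [← T.pull_comp, whiskerLeft_snd, T.pull_comp, h0, map_zero]
    have h2 := stable_vanish P (𝟙_ C) g m n hs (n + m) rfl (Nat.le_add_right n m) _ h1
    rw [← T.pull_comp, whiskerLeft_snd, T.pull_comp] at h2
    have h3 := congrArg (T.pull (lift (toUnit (P.cur.Mb g n)) (𝟙 (P.cur.Mb g n)))) h2
    rw [← T.pull_comp, lift_snd, T.pull_id, map_zero] at h3
    exact h3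
  · have := P.cur.unstable_empty g n hs
    exact Subsingleton.elim _ _

theorem main (g n d m : ℕ) (st : Stratification P.cur P.two g n d)
    (hm : (d + 1) * (mu d + 1) + 1 ≤ m) (x : T.CH (P.cur.M g n)) (hx : x ∈ T.deg (P.cur.M g n) d)
    (h0 : T.pull (P.cur.F g (Nat.le_add_right n m)) x = 0) : x = 0 := by
  have key : ∀ k, k ≤ st.K → T.pull (st.inc k) x = 0 := by
    intro k
    induction k with
    | zero =>
      intro _
      rw [← st.V₀_F, T.pull_comp, stable_locus_vanish P g n m x h0, map_zero]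
    | succ k ih =>
      intro hk
      have hk' : k < st.K := hk
      have h1 := ih hk'.le
      rw [← st.next_inc, T.pull_comp] at h1
      have hoc := st.oc k hk'
      obtain ⟨z, hz⟩ := T.push_exact hoc _ h1
      rcases Nat.lt_or_ge d (st.c k) with hc | hc
      · have h2 : T.pull (st.inc (k + 1)) x ∈ T.deg _ d := T.pull_deg _ _ _ hx
        have h3 := DirectSum.decompose_of_mem_same _ h2
        rw [← hz] at h3
        rw [← hz, ← h3]
        exact dec_push hoc d hc z
      · have s := st.stratum k hk'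
        have h4 := stratum_vanish P s d m hc hm x hx h0
        rw [T.pull_comp, ← hz, T.pull_push hoc] at h4
        have h5 := congrArg (T.pull s.q) h4
        have he : T.pull s.q (st.e k) = linProd P.two.S P.two.t s.A s.r s.nodes := s.euler
        rw [map_mul, map_zero, he] at h5
        have h6 : linProd P.two.S P.two.t s.A s.r s.nodes ∈
            nonZeroDivisors (T.CH (Pow s.A P.two.S s.r)) := by
          apply Submonoid.list_prod_mem
          intro y hy
          obtain ⟨a, ha, rfl⟩ := List.mem_map.mp hy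
          exact linForm_nzd P s.A a.1 a.2 s.r (s.nodes_nonzero a ha)
        have h7 : T.pull s.q z = 0 := (mem_nonZeroDivisors_iff_left.mp h6) _ h5
        have h8 : z = 0 := s.q_inj z h7
        rw [← hz, h8, push_zero]
  exact st.top x hx (key st.K le_rfl)

end Pool.Agent.H94.BS
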